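import Mathlib

set_option autoImplicit false
namespace Pool.Agent.Results.MP_718035_al.UncountableFields

universe v

open Polynomial Cardinal

/-- `SL_2(F)`. -/
abbrev SL (F : Type v) [Field F] := Matrix.SpecialLinearGroup (Fin 2) F
/-- `SL_2(F[X])`. -/
abbrev SLX (F : Type v) [Field F] := Matrix.SpecialLinearGroup (Fin 2) F[X]

variable {F : Type v} [Field F]

/-- Constant matrices. -/
noncomputable def cst : (SL F) →* (SLX F) := Matrix.SpecialLinearGroup.map Polynomial.C
/-- Evaluation at a real number. -/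
noncomputable def ev (x : F) : (SLX F) →* (SL F) :=
  Matrix.SpecialLinearGroup.map (Polynomial.evalRingHom x)

theorem cst_apply (a : (SL F)) (i j : Fin 2) : (cst a) i j = C (a i j) := rfl
theorem ev_apply (x : F) (W : (SLX F)) (i j : Fin 2) : (ev x W) i j = (W i j).eval x := rfl

theorem ev_cst (x : F) (a : (SL F)) : ev x (cst a) = a := by
  ext i j
  rw [ev_apply, cst_apply, eval_C]

/-- The upper unipotent matrix with entry the variable. -/
noncomputable def UX : (SLX F) := ⟨!![1, X; 0, 1], by simp [Matrix.det_fin_two]⟩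
/-- The inverse of `UX`. -/
noncomputable def UXi : (SLX F) := ⟨!![1, -X; 0, 1], by simp [Matrix.det_fin_two]⟩
/-- The upper unipotent real matrix. -/
noncomputable def Ur (x : F) : (SL F) := ⟨!![1, x; 0, 1], by simp [Matrix.det_fin_two]⟩

theorem UX_mul_UXi : (UX : SLX F) * UXi = 1 := by
  apply Subtype.ext
  rw [Matrix.SpecialLinearGroup.coe_mul, Matrix.SpecialLinearGroup.coe_one]
  simp [UX, UXi, Matrix.one_fin_two]

theorem UXi_eq : (UXi : SLX F) = UX⁻¹ := (inv_eq_of_mul_eq_one_right UX_mul_UXi).symm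

theorem ev_UX (x : F) : ev x UX = Ur x := by
  ext i j
  rw [ev_apply]
  fin_cases i <;> fin_cases j <;> simp [UX, Ur]

/-- Leading column is the first one. -/
def PB (d : ℕ) (W : (SLX F)) : Prop :=
  (∀ i j : Fin 2, ∀ m, d < m → (W i j).coeff m = 0) ∧ ∃ i : Fin 2, (W i 0).coeff d ≠ 0

/-- Leading column is the second one. -/
def PA (d : ℕ) (W : (SLX F)) : Prop :=
  (∀ i j : Fin 2, ∀ m, d < m → (W i j).coeff m = 0) ∧ (∀ i : Fin 2, (W i 0).coeff d = 0) ∧
    ∃ i : Fin 2, (W i 1).coeff d ≠ 0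

theorem mul_cst_apply (W : (SLX F)) (a : (SL F)) (i j : Fin 2) :
    (W * cst a) i j = W i 0 * C (a 0 j) + W i 1 * C (a 1 j) := by
  rw [Matrix.SpecialLinearGroup.coe_mul, Matrix.mul_apply, Fin.sum_univ_two]
  simp only [cst_apply]

theorem PB_of_PA {d : ℕ} {W : (SLX F)} (h : PA d W) (a : (SL F)) (ha : a 1 0 ≠ 0) :
    PB d (W * cst a) := by
  obtain ⟨h1, h2, i, h3⟩ := h
  refine ⟨?_, i, ?_⟩
  · intro i j m hm
    rw [mul_cst_apply, coeff_add, coeff_mul_C, coeff_mul_C, h1 _ _ _ hm, h1 _ _ _ hm]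
    ring
  · rw [mul_cst_apply, coeff_add, coeff_mul_C, coeff_mul_C, h2 i]
    simpa using ⟨h3, ha⟩

theorem mul_conj_apply_zero (W : (SLX F)) (a : (SL F)) (i : Fin 2) :
    (W * (UX * cst a * UXi) : SLX F) i 0 =
      W i 0 * C (a 0 0) + (W i 0 * C (a 1 0)) * X + W i 1 * C (a 1 0) := by
  simp only [Matrix.SpecialLinearGroup.coe_mul, Matrix.mul_apply, Fin.sum_univ_two, cst_apply]
  simp [UX, UXi]
  ring

theorem mul_conj_apply_one (W : (SLX F)) (a : (SL F)) (i : Fin 2) :
    (W * (UX * cst a * UXi) : SLX F) i 1 =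
      W i 0 * C (a 0 1) + W i 1 * C (a 1 1)
        + (W i 0 * C (a 1 1) - W i 0 * C (a 0 0) - W i 1 * C (a 1 0)) * X
        - (W i 0 * C (a 1 0)) * X ^ 2 := by
  simp only [Matrix.SpecialLinearGroup.coe_mul, Matrix.mul_apply, Fin.sum_univ_two, cst_apply]
  simp [UX, UXi]
  ring

theorem PA_of_PB {d : ℕ} {W : (SLX F)} (h : PB d W) (a : (SL F)) (ha : a 1 0 ≠ 0) :
    PA (d + 2) (W * (UX * cst a * UXi)) := by
  obtain ⟨h1, i, h3⟩ := h
  have e1 : ∀ (p : F[X]) (m : ℕ), (p * X).coeff (m + 1) = p.coeff m := fun p m => coeff_mul_X p m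
  have e2 : ∀ (p : F[X]) (m : ℕ), (p * X ^ 2).coeff (m + 2) = p.coeff m := fun p m =>
    coeff_mul_X_pow p 2 m
  have z0 : ∀ (i : Fin 2) (m : ℕ), d + 2 ≤ m →
      ((W * (UX * cst a * UXi) : SLX F) i 0).coeff m = 0 := by
    intro i m hm
    obtain ⟨m, rfl⟩ : ∃ m', m = m' + 1 := ⟨m - 1, by omega⟩
    rw [mul_conj_apply_zero, coeff_add, coeff_add, e1]
    simp only [coeff_mul_C]
    rw [h1 i 0 (m + 1) (by omega), h1 i 0 m (by omega), h1 i 1 (m + 1) (by omega)]
    ring
  have z1 : ∀ (i : Fin 2) (m : ℕ), d ≤ m →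
      ((W * (UX * cst a * UXi) : SLX F) i 1).coeff (m + 2) = - ((W i 0).coeff m * a 1 0) := by
    intro i m hm
    rw [mul_conj_apply_one, coeff_sub, coeff_add, coeff_add, e2]
    rw [show m + 2 = (m + 1) + 1 from rfl, e1]
    simp only [coeff_sub, coeff_mul_C]
    rw [h1 i 0 (m + 1 + 1) (by omega), h1 i 0 (m + 1) (by omega), h1 i 1 (m + 1 + 1) (by omega),
      h1 i 1 (m + 1) (by omega)]
    ring
  refine ⟨?_, fun i => z0 i _ le_rfl, i, ?_⟩
  · intro i j m hm
    fin_cases j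
    · exact z0 i m (by omega)
    · obtain ⟨m, rfl⟩ : ∃ m', m = m' + 2 := ⟨m - 2, by omega⟩
      have := z1 i m (by omega)
      simp only [Fin.mk_one, Fin.isValue]
      rw [this, h1 i 0 m (by omega)]
      ring
  · rw [z1 i d le_rfl]
    simpa using ⟨h3, ha⟩

/-- Reduced words: `true` = ends in the constant group, `false` = ends in the conjugated group. -/
inductive R (K : Subgroup (SL F)) (g : (SL F)) : Bool → (SLX F) → Prop
  | base (a : (SL F)) (ha : a ∈ K) : R K g true (cst a)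
  | x (W : (SLX F)) (n : ℤ) (hW : R K g true W) (h1 : g ^ n ≠ 1) (h2 : g ^ n ≠ -1) :
      R K g false (W * (UX * cst (g ^ n) * UXi))
  | k (W : (SLX F)) (a : (SL F)) (ha : a ∈ K) (h1 : a ≠ 1) (h2 : a ≠ -1) (hW : R K g false W) :
      R K g true (W * cst a)

theorem cst_neg (a : (SL F)) : cst (-a) = - cst a := by
  ext i j
  simp [cst_apply]

theorem R_neg {K : Subgroup (SL F)} (hK : (-1 : (SL F)) ∈ K) {g : (SL F)} {b : Bool} {W : (SLX F)}
    (h : R K g b W) : R K g b (-W) := by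
  induction h with
  | base a ha =>
    rw [← cst_neg]
    exact R.base _ (by rw [← neg_one_mul]; exact K.mul_mem hK ha)
  | x W n hW h1 h2 ih =>
    rw [← neg_mul]
    exact R.x _ n ih h1 h2
  | k W a ha h1 h2 hW ih =>
    rw [← neg_mul]
    exact R.k _ a ha h1 h2 ih

theorem conj_one : (UX : SLX F) * cst 1 * UXi = 1 := by
  rw [map_one, mul_one, UX_mul_UXi]

theorem conj_neg_one : (UX : SLX F) * cst (-1) * UXi = -1 := by
  rw [cst_neg, map_one, mul_neg, mul_one, neg_mul, UX_mul_UXi]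

theorem conj_mul (a b : (SL F)) :
    (UX * cst a * UXi) * (UX * cst b * UXi) = UX * cst (a * b) * UXi := by
  rw [map_mul, UXi_eq]; group

theorem R_mul_cst {K : Subgroup (SL F)} (hK : (-1 : (SL F)) ∈ K) {g : (SL F)} {W : (SLX F)}
    (h : R K g true W ∨ R K g false W) (a : (SL F)) (ha : a ∈ K) :
    R K g true (W * cst a) ∨ R K g false (W * cst a) := by
  rcases h with h | h
  · cases h with
    | base b hb =>
      left; rw [← map_mul]; exact R.base _ (K.mul_mem hb ha)
    | k W' b hb h1 h2 hW =>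
      rw [mul_assoc, ← map_mul]
      by_cases c1 : b * a = 1
      · right; rw [c1, map_one, mul_one]; exact hW
      by_cases c2 : b * a = -1
      · right; rw [c2, cst_neg, map_one, mul_neg, mul_one]; exact R_neg hK hW
      left; exact R.k _ _ (K.mul_mem hb ha) c1 c2 hW
  · by_cases c1 : a = 1
    · right; rw [c1, map_one, mul_one]; exact h
    by_cases c2 : a = -1
    · right; rw [c2, cst_neg, map_one, mul_neg, mul_one]; exact R_neg hK h
    left; exact R.k _ _ ha c1 c2 h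

theorem R_mul_conj {K : Subgroup (SL F)} (hK : (-1 : (SL F)) ∈ K) {g : (SL F)} {W : (SLX F)}
    (h : R K g true W ∨ R K g false W) (n : ℤ) :
    R K g true (W * (UX * cst (g ^ n) * UXi)) ∨ R K g false (W * (UX * cst (g ^ n) * UXi)) := by
  rcases h with h | h
  · by_cases c1 : g ^ n = 1
    · left; rw [c1, conj_one, mul_one]; exact h
    by_cases c2 : g ^ n = -1
    · left; rw [c2, conj_neg_one, mul_neg, mul_one]; exact R_neg hK h
    right; exact R.x _ _ h c1 c2
  · cases h with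
    | x W' m hW h1 h2 =>
      rw [mul_assoc, conj_mul, ← zpow_add]
      by_cases c1 : g ^ (m + n) = 1
      · left; rw [c1, conj_one, mul_one]; exact hW
      by_cases c2 : g ^ (m + n) = -1
      · left; rw [c2, conj_neg_one, mul_neg, mul_one]; exact R_neg hK hW
      right; exact R.x _ _ hW c1 c2

/-- The group generated by constants from `K` and the generic conjugate of `g`. -/
noncomputable def Kt (K : Subgroup (SL F)) (g : (SL F)) : Subgroup (SLX F) :=
  Subgroup.closure (cst '' (K : Set (SL F)) ∪ {UX * cst g * UXi})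

theorem conj_inv (g : (SL F)) : (UX * cst g * UXi)⁻¹ = UX * cst (g ^ (-1 : ℤ)) * UXi := by
  rw [zpow_neg_one, map_inv, UXi_eq]; group

theorem R_of_mem {K : Subgroup (SL F)} (hK : (-1 : (SL F)) ∈ K) {g : (SL F)} {W : (SLX F)} (hW : W ∈ Kt K g) :
    R K g true W ∨ R K g false W := by
  refine Subgroup.closure_induction_right (p := fun W _ => R K g true W ∨ R K g false W)
    ?_ ?_ ?_ hW
  · left
    have := R.base (K := K) (g := g) 1 K.one_mem
    rwa [map_one] at this
  · rintro W _ y hy h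
    rcases hy with ⟨a, ha, rfl⟩ | hy
    · exact R_mul_cst hK h a ha
    · rw [Set.mem_singleton_iff] at hy
      have := R_mul_conj hK h 1
      rw [zpow_one] at this
      rw [hy]; exact this
  · rintro W _ y hy h
    rcases hy with ⟨a, ha, rfl⟩ | hy
    · rw [← map_inv]
      exact R_mul_cst hK h _ (K.inv_mem ha)
    · rw [Set.mem_singleton_iff] at hy
      have := R_mul_conj hK h (-1)
      rw [hy, conj_inv]; exact this

theorem det_eq (a : (SL F)) : a 0 0 * a 1 1 - a 0 1 * a 1 0 = 1 := by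
  have := a.det_coe
  rwa [Matrix.det_fin_two] at this

theorem R_inv {K : Subgroup (SL F)} {g : (SL F)}
    (hK : ∀ a ∈ K, a ≠ 1 → a ≠ -1 → a 1 0 ≠ 0)
    (hg : ∀ n : ℤ, g ^ n ≠ 1 → g ^ n ≠ -1 → (g ^ n : (SL F)) 1 0 ≠ 0) {b : Bool} {W : (SLX F)}
    (h : R K g b W) :
    (b = true → (∃ a ∈ K, W = cst a) ∨ ∃ d, 0 < d ∧ PB d W) ∧
    (b = false → ∃ d, 0 < d ∧ PA d W) := by
  induction h with
  | base a ha => exact ⟨fun _ => Or.inl ⟨a, ha, rfl⟩, fun h => by simp at h⟩
  | x W n hW h1 h2 ih =>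
    refine ⟨fun h => by simp at h, fun _ => ?_⟩
    rcases ih.1 rfl with ⟨a, ha, rfl⟩ | ⟨d, hd, hB⟩
    · refine ⟨0 + 2, by norm_num, PA_of_PB ⟨?_, ?_⟩ _ (hg n h1 h2)⟩
      · intro i j m hm
        rw [cst_apply, coeff_C_of_ne_zero (by omega)]
      · by_contra hcon
        push Not at hcon
        have h0 := hcon 0
        have h1 := hcon 1
        rw [cst_apply, coeff_C_zero] at h0 h1
        have := det_eq a
        rw [h0, h1] at this
        simp at this
    · exact ⟨d + 2, by omega, PA_of_PB hB _ (hg n h1 h2)⟩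
  | k W a ha h1 h2 hW ih =>
    refine ⟨fun _ => ?_, fun h => by simp at h⟩
    obtain ⟨d, hd, hA⟩ := ih.2 rfl
    exact Or.inr ⟨d, hd, PB_of_PA hA a (hK a ha h1 h2)⟩

/-- The generic conjugate does not create new constants. -/
theorem cst_not_mem {K : Subgroup (SL F)} (hneg : (-1 : (SL F)) ∈ K) {g : (SL F)}
    (hK : ∀ a ∈ K, a ≠ 1 → a ≠ -1 → a 1 0 ≠ 0)
    (hg : ∀ n : ℤ, g ^ n ≠ 1 → g ^ n ≠ -1 → (g ^ n : (SL F)) 1 0 ≠ 0) {u : (SL F)} (hu : u ∉ K) :
    cst u ∉ Kt K g := by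
  intro hmem
  have hinj : ∀ a : (SL F), cst u = cst a → u = a := by
    intro a h
    have := congrArg (ev 0) h
    rwa [ev_cst, ev_cst] at this
  rcases R_of_mem hneg hmem with h | h
  · rcases (R_inv hK hg h).1 rfl with ⟨a, ha, h⟩ | ⟨d, hd, -, i, hi⟩
    · exact hu (hinj a h ▸ ha)
    · apply hi
      rw [cst_apply, coeff_C_of_ne_zero (by omega)]
  · obtain ⟨d, hd, -, -, i, hi⟩ := (R_inv hK hg h).2 rfl
    apply hi
    rw [cst_apply, coeff_C_of_ne_zero (by omega)]

/-- A nonconstant element takes the value `u` at finitely many points only. -/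
theorem finite_eval {W : (SLX F)} {u : (SL F)} (h : W ≠ cst u) : {x : F | ev x W = u}.Finite := by
  classical
  have : ∃ i j, W i j ≠ C (u i j) := by
    by_contra hcon
    push Not at hcon
    exact h (by ext1 i j; rw [hcon, cst_apply])
  obtain ⟨i, j, hij⟩ := this
  have hne : W i j - C (u i j) ≠ 0 := sub_ne_zero.mpr hij
  refine ((W i j - C (u i j)).roots.toFinset.finite_toSet).subset ?_
  intro x hx
  rw [Set.mem_ofPred_eq] at hx
  rw [Finset.mem_coe, Multiset.mem_toFinset, mem_roots hne, IsRoot.def, eval_sub, eval_C,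
    ← ev_apply, hx, sub_self]

theorem mk_closure_lt {G : Type v} [Group G] {s : Set G} {c : Cardinal.{v}} (hc : ℵ₀ < c)
    (hs : #s < c) : #(Subgroup.closure s) < c := by
  rw [FreeGroup.closure_eq_range]
  refine lt_of_le_of_lt (Cardinal.mk_le_of_surjective (MonoidHom.rangeRestrict_surjective _)) ?_
  by_cases hne : Nonempty s
  · rw [Cardinal.mk_freeGroup]
    exact max_lt hs hc
  · rw [not_nonempty_iff] at hne
    exact lt_of_le_of_lt Cardinal.mk_le_aleph0 hc

omit [Field F] in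
/-- Fewer than `#F` finite sets do not cover an uncountable field `F`. -/
theorem exists_avoid (hF : ℵ₀ < #F) {ι : Type v} (hι : #ι < #F) (B : ι → Set F)
    (hB : ∀ i, (B i).Finite) : ∃ x : F, ∀ i, x ∉ B i := by
  by_contra hcon
  push Not at hcon
  have h1 : (⋃ i, B i) = Set.univ := by
    ext x; simpa using hcon x
  have h2 : #(⋃ i, B i) ≤ #ι * ⨆ i, #(B i) := Cardinal.mk_iUnion_le B
  have h3 : (⨆ i, #(B i)) ≤ ℵ₀ := ciSup_le' fun i => (hB i).countable.le_aleph0
  rw [h1, Cardinal.mk_univ] at h2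
  have h4 : #ι * (⨆ i, #(B i)) ≤ #ι * ℵ₀ := mul_le_mul_right h3 _
  have h5 : #ι * ℵ₀ < #F := Cardinal.mul_lt_of_lt hF.le hι hF
  exact absurd (h2.trans h4) (not_le.mpr h5)

theorem exists_x (hF : ℵ₀ < #F) {K : Subgroup (SL F)} (hcard : #K < #F)
    (hneg : (-1 : SL F) ∈ K) {g : SL F}
    (hK : ∀ a ∈ K, a ≠ 1 → a ≠ -1 → a 1 0 ≠ 0)
    (hg : ∀ n : ℤ, g ^ n ≠ 1 → g ^ n ≠ -1 → (g ^ n : SL F) 1 0 ≠ 0)
    {U : Set (SL F)} (hUc : #U < #F) (hu : ∀ u ∈ U, u ∉ K) :
    ∃ h : SL F, ∀ u ∈ U, u ∉ Subgroup.closure ((K : Set (SL F)) ∪ {h * g * h⁻¹}) := by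
  have hc : #(Kt K g) < #F := by
    refine mk_closure_lt hF ?_
    refine lt_of_le_of_lt (Cardinal.mk_union_le _ _) ?_
    refine Cardinal.add_lt_of_lt hF.le
      (lt_of_le_of_lt Cardinal.mk_image_le hcard) ?_
    rw [Cardinal.mk_singleton]
    exact lt_trans Cardinal.one_lt_aleph0 hF
  have hcU : #(Kt K g × U) < #F := by
    rw [Cardinal.mk_prod, Cardinal.lift_id, Cardinal.lift_id]
    exact Cardinal.mul_lt_of_lt hF.le hc hUc
  obtain ⟨x, hx⟩ := exists_avoid hF hcU (fun W => {x : F | ev x (W.1 : SLX F) = W.2}) (fun W =>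
    finite_eval (fun h => cst_not_mem hneg hK hg (hu W.2 W.2.2) (h ▸ W.1.2)))
  refine ⟨Ur x, fun u huU hmem => ?_⟩
  have hmap : Subgroup.closure ((K : Set (SL F)) ∪ {Ur x * g * (Ur x)⁻¹}) =
      (Kt K g).map (ev x) := by
    rw [Kt, MonoidHom.map_closure, Set.image_union, Set.image_singleton, ← Set.image_comp]
    congr 2
    · ext z
      simp [ev_cst]
    · rw [map_mul, map_mul, UXi_eq, map_inv, ev_UX, ev_cst]
  rw [hmap] at hmem
  obtain ⟨W, hW, hWu⟩ := hmem
  exact hx (⟨W, hW⟩, ⟨u, huU⟩) hWu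

/-- The lower unipotent matrix. -/
noncomputable def Lr (s : F) : SL F := ⟨!![1, 0; s, 1], by simp [Matrix.det_fin_two]⟩

theorem Lr_inv (s : F) : (Lr s)⁻¹ = Lr (-s) := by
  rw [inv_eq_iff_mul_eq_one]
  apply Subtype.ext
  rw [Matrix.SpecialLinearGroup.coe_mul, Matrix.SpecialLinearGroup.coe_one]
  simp [Lr, Matrix.one_fin_two]

theorem Lr_conj (s : F) (a : SL F) :
    ((Lr s)⁻¹ * a * Lr s) 1 0 = - (a 0 1) * s ^ 2 + (a 1 1 - a 0 0) * s + a 1 0 := by
  rw [Lr_inv]
  simp only [Matrix.SpecialLinearGroup.coe_mul, Matrix.mul_apply, Fin.sum_univ_two]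
  simp [Lr]
  ring

theorem scalar_of {a : SL F} (h1 : a 0 1 = 0) (h2 : a 1 0 = 0) (h3 : a 1 1 = a 0 0) :
    a = 1 ∨ a = -1 := by
  have hd := det_eq a
  rw [h1, h3, zero_mul, sub_zero] at hd
  have : (a 0 0 - 1) * (a 0 0 + 1) = 0 := by linear_combination hd
  rcases mul_eq_zero.mp this with h | h
  · left
    have h0 : a 0 0 = 1 := by linear_combination h
    ext i j
    fin_cases i <;> fin_cases j <;> simp [h0, h1, h2, h3]
  · right
    have h0 : a 0 0 = -1 := by linear_combination h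
    ext i j
    fin_cases i <;> fin_cases j <;> simp [h0, h1, h2, h3]

theorem finite_bad {a : SL F} (h1 : a ≠ 1) (h2 : a ≠ -1) :
    {s : F | ((Lr s)⁻¹ * a * Lr s) 1 0 = 0}.Finite := by
  classical
  have hp : (C (- (a 0 1)) * X ^ 2 + C (a 1 1 - a 0 0) * X + C (a 1 0) : F[X]) ≠ 0 := by
    intro h
    have c0 := congrArg (fun p => coeff p 0) h
    have c1 := congrArg (fun p => coeff p 1) h
    have c2 := congrArg (fun p => coeff p 2) h
    simp [coeff_X, coeff_C] at c0 c1 c2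
    rcases scalar_of c2 c0 (by linear_combination c1) with h | h
    · exact h1 h
    · exact h2 h
  refine ((C (- (a 0 1)) * X ^ 2 + C (a 1 1 - a 0 0) * X + C (a 1 0) :
    F[X]).roots.toFinset.finite_toSet).subset ?_
  intro s hs
  rw [Set.mem_ofPred_eq, Lr_conj] at hs
  rw [Finset.mem_coe, Multiset.mem_toFinset, mem_roots hp, IsRoot.def]
  simpa using hs

theorem pow_scalar {g : SL F} (hg : g 1 0 ≠ 0) {h : SL F} (hc : g * h = h * g)
    (h0 : h 1 0 = 0) : h = 1 ∨ h = -1 := by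
  have e := fun i j => congrArg (fun m : SL F => m i j) hc
  have e00 := e 0 0
  have e10 := e 1 0
  simp only [Matrix.SpecialLinearGroup.coe_mul, Matrix.mul_apply, Fin.sum_univ_two, h0] at e00 e10
  have h01 : h 0 1 = 0 := by
    have : h 0 1 * g 1 0 = 0 := by linear_combination -e00
    exact (mul_eq_zero.mp this).resolve_right hg
  have h11 : h 1 1 = h 0 0 := by
    have : (h 1 1 - h 0 0) * g 1 0 = 0 := by linear_combination -e10
    have := (mul_eq_zero.mp this).resolve_right hg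
    linear_combination this
  exact scalar_of h01 h0 h11

/-- The main extension step. -/
theorem key (hF : ℵ₀ < #F) {K : Subgroup (SL F)} (hcard : #K < #F) (hneg : (-1 : SL F) ∈ K)
    (g : SL F) {U : Set (SL F)} (hUc : #U < #F) (hu : ∀ u ∈ U, u ∉ K) :
    ∃ h : SL F, ∀ u ∈ U, u ∉ Subgroup.closure ((K : Set (SL F)) ∪ {h * g * h⁻¹}) := by
  by_cases hgK : g ∈ K
  · refine ⟨1, ?_⟩
    rw [one_mul, inv_one, mul_one, Set.union_eq_self_of_subset_right (by simpa using hgK),
      Subgroup.closure_eq]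
    exact hu
  have hg1 : g ≠ 1 := fun h => hgK (h ▸ K.one_mem)
  have hg2 : g ≠ -1 := fun h => hgK (h ▸ hneg)
  have hι : #(K ⊕ PUnit.{v+1}) < #F := by
    rw [Cardinal.mk_sum, Cardinal.lift_id, Cardinal.lift_id]
    refine Cardinal.add_lt_of_lt hF.le hcard ?_
    exact lt_of_le_of_lt Cardinal.mk_le_aleph0 hF
  obtain ⟨s, hs⟩ := exists_avoid hF hι
    (Sum.elim (fun a => {s : F | (a : SL F) ≠ 1 ∧ (a : SL F) ≠ -1 ∧ ((Lr s)⁻¹ * a * Lr s) 1 0 = 0})
      (fun _ => {s : F | ((Lr s)⁻¹ * g * Lr s) 1 0 = 0})) (by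
      rintro (a | _)
      · by_cases h1 : (a : SL F) = 1
        · exact Set.finite_empty.subset fun s hs => hs.1 h1
        by_cases h2 : (a : SL F) = -1
        · exact Set.finite_empty.subset fun s hs => hs.2.1 h2
        refine (finite_bad h1 h2).subset ?_
        intro s hs
        exact hs.2.2
      · exact finite_bad hg1 hg2)
  have hsK := fun a : K => hs (Sum.inl a)
  have hsg := hs (Sum.inr PUnit.unit)
  simp only [Sum.elim_inl, Sum.elim_inr, Set.mem_ofPred_eq, not_and] at hsK hsg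
  set P := Lr s with hP
  set φ : SL F ≃* SL F := MulAut.conj P⁻¹ with hφ
  have hφa : ∀ a, φ a = P⁻¹ * a * P := fun a => by simp [hφ]
  have hneg1 : P⁻¹ * (-1) * P = -1 := by rw [mul_neg, mul_one, neg_mul, inv_mul_cancel]
  have e1 : ∀ a : SL F, P⁻¹ * a * P ≠ 1 → a ≠ 1 := by
    rintro a h rfl
    exact h (by group)
  have e2 : ∀ a : SL F, P⁻¹ * a * P ≠ -1 → a ≠ -1 := by
    rintro a h rfl
    exact h hneg1
  obtain ⟨h, hh⟩ := exists_x hF (K := K.map φ.toMonoidHom) (g := P⁻¹ * g * P)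
    (U := φ '' U)
    (by
      refine lt_of_le_of_lt ?_ hcard
      exact Cardinal.mk_image_le)
    (by
      refine ⟨-1, hneg, ?_⟩
      change φ (-1) = -1
      rw [hφa, hneg1])
    (by
      rintro a ⟨b, hb, rfl⟩ h1 h2
      change (φ b) 1 0 ≠ 0
      change φ b ≠ 1 at h1
      change φ b ≠ -1 at h2
      rw [hφa] at h1 h2 ⊢
      exact hsK ⟨b, hb⟩ (e1 b h1) (e2 b h2))
    (by
      intro n h1 h2 h0
      rcases pow_scalar hsg (h := (P⁻¹ * g * P) ^ n)
        ((Commute.refl _).zpow_right n).eq h0 with h | h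
      · exact h1 h
      · exact h2 h)
    (by
      refine lt_of_le_of_lt ?_ hUc
      exact Cardinal.mk_image_le)
    (by
      rintro _ ⟨u, huU, rfl⟩ ⟨b, hb, hbu⟩
      change φ b = _ at hbu
      have : b = u := φ.injective hbu
      exact hu u huU (this ▸ hb))
  refine ⟨P * h * P⁻¹, fun u huU hmem => hh (φ u) ⟨u, huU, rfl⟩ ?_⟩
  have := Subgroup.mem_map_of_mem φ.toMonoidHom hmem
  rw [MonoidHom.map_closure] at this
  change φ u ∈ _ at this
  refine (Subgroup.closure_mono ?_) this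
  rintro z ⟨y, hy | hy, rfl⟩
  · exact Or.inl ⟨y, hy, rfl⟩
  · rw [Set.mem_singleton_iff] at hy
    refine Or.inr ?_
    change φ y = _
    rw [hφa, hy]
    group

theorem mk_SL_le (hF : ℵ₀ < #F) : #(SL F) ≤ #F := by
  have a : ∀ A : Type v, ℵ₀ ≤ #A → #(Fin 2 → A) = #A := by
    intro A hA
    rw [Cardinal.mk_pi, Cardinal.prod_const, Cardinal.mk_fin, Cardinal.lift_natCast,
      Cardinal.lift_uzero]
    exact Cardinal.power_nat_eq hA (by norm_num)
  have h1 : #(Fin 2 → Fin 2 → F) = #F := by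
    rw [a (Fin 2 → F) (by rw [a F hF.le]; exact hF.le), a F hF.le]
  rw [← h1]
  exact Cardinal.mk_le_of_injective (f := fun a : SL F => (fun i j => a i j)) (fun a b h => by
    ext i j
    exact congrFun (congrFun h i) j)

section Recursion

variable (r : SL F → SL F → Prop) [IsWellOrder (SL F) r] (B : Subgroup (SL F)) (U : Set (SL F))

open Classical in
/-- The recursive choice of conjugators. -/
noncomputable def conjf : SL F → SL F :=
  IsWellFounded.fix r (fun g E =>
    if h : ∃ h : SL F, ∀ u ∈ U, u ∉ Subgroup.closure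
        ((B : Set (SL F)) ∪ {z | ∃ (g' : SL F) (hr : r g' g), z = E g' hr * g' * (E g' hr)⁻¹} ∪
          {h * g * h⁻¹})
      then h.choose else 1)

/-- The elements chosen before stage `g`, and the base group. -/
def Tset (g : SL F) : Set (SL F) :=
  (B : Set (SL F)) ∪ {z | ∃ g' : SL F, r g' g ∧ z = conjf r B U g' * g' * (conjf r B U g')⁻¹}

/-- The group generated by the elements chosen up to stage `g`. -/
noncomputable def Dgrp (g : SL F) : Subgroup (SL F) :=
  Subgroup.closure (Tset r B U g ∪ {conjf r B U g * g * (conjf r B U g)⁻¹})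

theorem conjf_spec (g : SL F)
    (h : ∃ h : SL F, ∀ u ∈ U, u ∉ Subgroup.closure (Tset r B U g ∪ {h * g * h⁻¹})) :
    ∀ u ∈ U, u ∉ Dgrp r B U g := by
  have hT : ((B : Set (SL F)) ∪ {z | ∃ (g' : SL F) (_ : r g' g),
      z = conjf r B U g' * g' * (conjf r B U g')⁻¹} : Set (SL F)) = Tset r B U g := by
    rw [Tset]
    congr 1
    ext z
    simp
  have h' : ∃ h : SL F, ∀ u ∈ U, u ∉ Subgroup.closure
      ((B : Set (SL F)) ∪ {z | ∃ (g' : SL F) (_ : r g' g),
        z = conjf r B U g' * g' * (conjf r B U g')⁻¹} ∪ {h * g * h⁻¹}) := by rwa [hT]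
  have hfix : conjf r B U g = h'.choose := by
    conv_lhs => rw [conjf, IsWellFounded.fix_eq]
    rw [dif_pos]
    rfl
  rw [Dgrp, ← hT, hfix]
  exact h'.choose_spec

theorem Tset_mono {a b : SL F} (h : r a b) : Tset r B U a ⊆ Tset r B U b := by
  rintro z (hz | ⟨g', hg', rfl⟩)
  · exact Or.inl hz
  · exact Or.inr ⟨g', _root_.trans hg' h, rfl⟩

theorem Dgrp_mono {a b : SL F} (h : r a b) : Dgrp r B U a ≤ Dgrp r B U b := by
  refine Subgroup.closure_mono ?_
  rintro z (hz | hz)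
  · exact Or.inl (Tset_mono r B U h hz)
  · rw [Set.mem_singleton_iff] at hz
    exact Or.inl (Or.inr ⟨a, h, hz⟩)

theorem not_mem_of_stages (S : Set (SL F)) (hB : ∀ u ∈ U, u ∉ B)
    (hS : ∀ g ∈ S, ∀ u ∈ U, u ∉ Dgrp r B U g) :
    ∀ u ∈ U, u ∉ Subgroup.closure
      ((B : Set (SL F)) ∪ {z | ∃ g' ∈ S, z = conjf r B U g' * g' * (conjf r B U g')⁻¹}) := by
  intro u huU hmem
  rcases S.eq_empty_or_nonempty with hE | hne
  · have hle : Subgroup.closure ((B : Set (SL F)) ∪
        {z | ∃ g' ∈ S, z = conjf r B U g' * g' * (conjf r B U g')⁻¹}) ≤ B := by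
      rw [Subgroup.closure_le]
      rintro z (hz | ⟨g', hg', -⟩)
      · exact hz
      · rw [hE] at hg'; exact absurd hg' (Set.notMem_empty _)
    exact hB u huU (hle hmem)
  · have : Nonempty S := hne.to_subtype
    have hdir : Directed (· ≤ ·) (fun g : S => Dgrp r B U g) := by
      intro a b
      rcases trichotomous_of r (a : SL F) b with h | h | h
      · exact ⟨b, Dgrp_mono r B U h, le_rfl⟩
      · exact ⟨b, le_of_eq (congrArg (Dgrp r B U) h), le_rfl⟩
      · exact ⟨a, le_rfl, Dgrp_mono r B U h⟩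
    have hle : Subgroup.closure ((B : Set (SL F)) ∪
        {z | ∃ g' ∈ S, z = conjf r B U g' * g' * (conjf r B U g')⁻¹})
        ≤ ⨆ g : S, Dgrp r B U g := by
      rw [Subgroup.closure_le]
      intro z hz
      rcases hz with hz | ⟨g', hg', hz⟩
      · obtain ⟨g', hg'⟩ := hne
        refine (le_iSup (fun g : S => Dgrp r B U g) ⟨g', hg'⟩) ?_
        exact Subgroup.subset_closure (Or.inl (Or.inl hz))
      · refine (le_iSup (fun g : S => Dgrp r B U g) ⟨g', hg'⟩) ?_
        exact Subgroup.subset_closure (Or.inr hz)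
    obtain ⟨g, hg⟩ := (Subgroup.mem_iSup_of_directed hdir).mp (hle hmem)
    exact hS g g.2 u huU hg

theorem not_mem_Dgrp (hF : ℵ₀ < #F) (hr : (#(SL F)).ord = Ordinal.type r)
    (hBc : #B < #F) (hneg : (-1 : SL F) ∈ B) (hUc : #U < #F) (hB : ∀ u ∈ U, u ∉ B) (g : SL F) :
    ∀ u ∈ U, u ∉ Dgrp r B U g := by
  induction g using IsWellFounded.induction r with
  | ind g ih =>
  apply conjf_spec
  have hT : ∀ u ∈ U, u ∉ Subgroup.closure (Tset r B U g) := by
    have := not_mem_of_stages r B U {g' | r g' g} hB ih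
    exact this
  have hcard : #(Subgroup.closure (Tset r B U g)) < #F := by
    refine mk_closure_lt hF ?_
    refine lt_of_le_of_lt (Cardinal.mk_union_le _ _) ?_
    refine Cardinal.add_lt_of_lt hF.le hBc ?_
    have h1 : #{y // r y g} < #(SL F) := by
      rw [← Ordinal.card_typein]
      exact Cardinal.card_typein_lt g hr
    refine lt_of_le_of_lt ?_ (lt_of_lt_of_le h1 (mk_SL_le hF))
    refine Cardinal.mk_le_of_surjective
      (f := fun y : {y // r y g} => (⟨conjf r B U y * y * (conjf r B U y)⁻¹, y, y.2, rfl⟩ :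
        {z | ∃ g' : SL F, r g' g ∧ z = conjf r B U g' * g' * (conjf r B U g')⁻¹})) ?_
    rintro ⟨z, g', hg', rfl⟩
    exact ⟨⟨g', hg'⟩, rfl⟩
  have hneg : (-1 : SL F) ∈ Subgroup.closure (Tset r B U g) :=
    Subgroup.subset_closure (Or.inl hneg)
  obtain ⟨h, hh⟩ := key hF hcard hneg g hUc hT
  refine ⟨h, fun u huU hmem => hh u huU ?_⟩
  refine Subgroup.closure_mono ?_ hmem
  exact Set.union_subset_union_left _ Subgroup.subset_closure

end Recursion

/-- For an uncountable field `F`, a subgroup `L` of `SL_2(F)` with fewer than `#F` elements and a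
subgroup `K` of `L` containing `-1`, there is a subgroup `H` of `SL_2(F)` that meets every
conjugacy class and satisfies `H ∩ L = K`. -/
theorem result (F : Type v) [Field F] (hF : ℵ₀ < #F)
    (L K : Subgroup (Matrix.SpecialLinearGroup (Fin 2) F)) (hL : #L < #F) (hKL : K ≤ L)
    (hneg : (-1 : Matrix.SpecialLinearGroup (Fin 2) F) ∈ K) :
    ∃ H : Subgroup (Matrix.SpecialLinearGroup (Fin 2) F), H ⊓ L = K ∧
      ∀ g : Matrix.SpecialLinearGroup (Fin 2) F,
        ∃ x : Matrix.SpecialLinearGroup (Fin 2) F, x * g * x⁻¹ ∈ H := by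
  obtain ⟨r, hwo, hr⟩ := Cardinal.exists_ord_eq (SL F)
  have hKc : #K < #F := lt_of_le_of_lt (Cardinal.mk_le_mk_of_subset hKL) hL
  have hUc : #((L : Set (SL F)) \ K : Set (SL F)) < #F :=
    lt_of_le_of_lt (Cardinal.mk_le_mk_of_subset Set.sdiff_subset) hL
  have hB : ∀ u ∈ (L : Set (SL F)) \ K, u ∉ K := fun u hu => hu.2
  have hnot := not_mem_of_stages r K ((L : Set (SL F)) \ K) Set.univ hB
    (fun g _ => not_mem_Dgrp r K _ hF hr hKc hneg hUc hB g)
  refine ⟨Subgroup.closure ((K : Set (SL F)) ∪ {z | ∃ g' ∈ Set.univ,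
    z = conjf r K ((L : Set (SL F)) \ K) g' * g' * (conjf r K ((L : Set (SL F)) \ K) g')⁻¹}),
    le_antisymm ?_ (le_inf ?_ hKL), fun g =>
    ⟨conjf r K ((L : Set (SL F)) \ K) g, Subgroup.subset_closure (Or.inr ⟨g, Set.mem_univ _, rfl⟩)⟩⟩
  · intro z hz
    by_contra hzK
    exact hnot z ⟨hz.2, hzK⟩ hz.1
  · intro z hz
    exact Subgroup.subset_closure (Or.inl hz)

end Pool.Agent.Results.MP_718035_al.UncountableFields
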